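import Pool.Agent.K4H12.R210.Defs

/-!
Local certificate (a finite list of polynomial inequalities in `a = α`, `b = 1 - α`) used for the
drift bound of the `α`-asynchronous rule 210.
-/

namespace Pool.Agent.K4H12.R210

/-- marks: `one` for a cell in state 1; a zero is `odd`/`even` according to the parity of its
position in its maximal block of zeros -/
inductive Sym
  | one | odd | even
  deriving DecidableEq

/-- state of a marked cell -/
def Sym.bit : Sym → Bool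
  | .one => true
  | _ => false

/-- mark of the next cell -/
def nxt : Sym → Bool → Sym
  | _, true => .one
  | .odd, false => .even
  | .one, false => .odd
  | .even, false => .odd

/-- probability that the cell with neighbourhood `(l,c,r)` has state `t` after one step -/
noncomputable def pr (a b : ℝ) (l c r t : Bool) : ℝ :=
  (if rule l c r = t then a else 0) + (if c = t then b else 0)

noncomputable def cA (a b : ℝ) : ℝ := 102*a*b^3 + 60*a^2*b^2 + 23*a^3*b + 10*a^4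
noncomputable def cB (a b : ℝ) : ℝ := 210*b^4 + 47*a*b^3 + 28*a^2*b^2 + 10*a^3*b
noncomputable def cD (a b : ℝ) : ℝ := 104*a*b^3 + 21*a^2*b^2 + 10*a^3*b
noncomputable def cE (a b : ℝ) : ℝ := 90*b^4 + 30*a^2*b^2
noncomputable def cG (a b : ℝ) : ℝ := 30*b^4 + 10*a^2*b^2
noncomputable def cF (a b : ℝ) : ℝ := 20*b^4 + 70*a*b^3 - 2*a^2*b^2 + 10*a^3*b
noncomputable def cK (a b : ℝ) : ℝ := 39*a^2*b^2 + 13*a^3*b + 10*a^4

/-- the telescoping correction -/
noncomputable def hh (a b : ℝ) : Sym → Bool → Bool → Bool → Bool → ℝ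
  | .one, true, true, true, true => -(210*a*b^7) - 779*a^2*b^6 - 1165*a^3*b^5 - 954*a^4*b^4 - 522*a^5*b^3 - 217*a^6*b^2 - 63*a^7*b - 10*a^8
  | .one, true, true, true, false => -(210*a*b^7) - 779*a^2*b^6 - 1165*a^3*b^5 - 954*a^4*b^4 - 522*a^5*b^3 - 217*a^6*b^2 - 63*a^7*b - 10*a^8
  | .one, true, true, false, true => -(210*a*b^7) - 779*a^2*b^6 - 1165*a^3*b^5 - 954*a^4*b^4 - 522*a^5*b^3 - 217*a^6*b^2 - 63*a^7*b - 10*a^8
  | .one, true, true, false, false => -(210*a*b^7) - 779*a^2*b^6 - 1165*a^3*b^5 - 954*a^4*b^4 - 522*a^5*b^3 - 217*a^6*b^2 - 63*a^7*b - 10*a^8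
  | .one, true, false, true, true => -(210*a*b^7) - 779*a^2*b^6 - 1165*a^3*b^5 - 954*a^4*b^4 - 522*a^5*b^3 - 217*a^6*b^2 - 63*a^7*b - 10*a^8
  | .one, true, false, true, false => -(210*a*b^7) - 779*a^2*b^6 - 1165*a^3*b^5 - 954*a^4*b^4 - 522*a^5*b^3 - 217*a^6*b^2 - 63*a^7*b - 10*a^8
  | .one, true, false, false, true => -(210*a*b^7) - 779*a^2*b^6 - 1165*a^3*b^5 - 954*a^4*b^4 - 522*a^5*b^3 - 217*a^6*b^2 - 63*a^7*b - 10*a^8
  | .one, true, false, false, false => -(210*a*b^7) - 779*a^2*b^6 - 1165*a^3*b^5 - 954*a^4*b^4 - 522*a^5*b^3 - 217*a^6*b^2 - 63*a^7*b - 10*a^8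
  | .one, false, true, true, true => -(210*a*b^7) - 675*a^2*b^6 - 832*a^3*b^5 - 569*a^4*b^4 - 325*a^5*b^3 - 166*a^6*b^2 - 53*a^7*b - 10*a^8
  | .one, false, true, true, false => -(210*a*b^7) - 675*a^2*b^6 - 832*a^3*b^5 - 569*a^4*b^4 - 325*a^5*b^3 - 166*a^6*b^2 - 53*a^7*b - 10*a^8
  | .one, false, true, false, true => -(210*a*b^7) - 675*a^2*b^6 - 832*a^3*b^5 - 569*a^4*b^4 - 325*a^5*b^3 - 166*a^6*b^2 - 53*a^7*b - 10*a^8
  | .one, false, true, false, false => -(210*a*b^7) - 675*a^2*b^6 - 832*a^3*b^5 - 569*a^4*b^4 - 325*a^5*b^3 - 166*a^6*b^2 - 53*a^7*b - 10*a^8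
  | .one, false, false, true, true => -(210*a*b^7) - 883*a^2*b^6 - 1394*a^3*b^5 - 1110*a^4*b^4 - 563*a^5*b^3 - 227*a^6*b^2 - 63*a^7*b - 10*a^8
  | .one, false, false, true, false => -(210*a*b^7) - 883*a^2*b^6 - 1394*a^3*b^5 - 1110*a^4*b^4 - 563*a^5*b^3 - 227*a^6*b^2 - 63*a^7*b - 10*a^8
  | .one, false, false, false, true => -(210*a*b^7) - 779*a^2*b^6 - 1165*a^3*b^5 - 954*a^4*b^4 - 522*a^5*b^3 - 217*a^6*b^2 - 63*a^7*b - 10*a^8
  | .one, false, false, false, false => -(210*a*b^7) - 779*a^2*b^6 - 1165*a^3*b^5 - 954*a^4*b^4 - 524*a^5*b^3 - 217*a^6*b^2 - 63*a^7*b - 10*a^8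
  | .odd, true, true, true, true => 0
  | .odd, true, true, true, false => 0
  | .odd, true, true, false, true => -(60*a*b^7) - 150*a^2*b^6 - 126*a^3*b^5 - 76*a^4*b^4 - 38*a^5*b^3 - 10*a^6*b^2
  | .odd, true, true, false, false => -(90*a*b^7) - 180*a^2*b^6 - 140*a^3*b^5 - 86*a^4*b^4 - 40*a^5*b^3 - 10*a^6*b^2
  | .odd, true, false, true, true => -(210*a*b^7) - 740*a^2*b^6 - 866*a^3*b^5 - 490*a^4*b^4 - 202*a^5*b^3 - 68*a^6*b^2 - 10*a^7*b
  | .odd, true, false, true, false => -(210*a*b^7) - 740*a^2*b^6 - 866*a^3*b^5 - 490*a^4*b^4 - 202*a^5*b^3 - 68*a^6*b^2 - 10*a^7*b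
  | .odd, true, false, false, true => -(190*a*b^7) - 460*a^2*b^6 - 404*a^3*b^5 - 222*a^4*b^4 - 110*a^5*b^3 - 30*a^6*b^2
  | .odd, true, false, false, false => -(210*a*b^7) - 500*a^2*b^6 - 402*a^3*b^5 - 220*a^4*b^4 - 110*a^5*b^3 - 30*a^6*b^2
  | .odd, false, true, true, true => -(420*a*b^7) - 1205*a^2*b^6 - 1217*a^3*b^5 - 572*a^4*b^4 - 189*a^5*b^3 - 58*a^6*b^2 - 10*a^7*b
  | .odd, false, true, true, false => -(420*a*b^7) - 1205*a^2*b^6 - 1217*a^3*b^5 - 572*a^4*b^4 - 189*a^5*b^3 - 58*a^6*b^2 - 10*a^7*b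
  | .odd, false, true, false, true => -(390*a*b^7) - 1193*a^2*b^6 - 1294*a^3*b^5 - 675*a^4*b^4 - 221*a^5*b^3 - 76*a^6*b^2 - 20*a^7*b
  | .odd, false, true, false, false => -(390*a*b^7) - 1223*a^2*b^6 - 1297*a^3*b^5 - 595*a^4*b^4 - 199*a^5*b^3 - 68*a^6*b^2 - 10*a^7*b
  | .odd, false, false, true, true => -(210*a*b^7) - 638*a^2*b^6 - 773*a^3*b^5 - 508*a^4*b^4 - 209*a^5*b^3 - 56*a^6*b^2 - 10*a^7*b
  | .odd, false, false, true, false => -(210*a*b^7) - 638*a^2*b^6 - 773*a^3*b^5 - 508*a^4*b^4 - 209*a^5*b^3 - 56*a^6*b^2 - 10*a^7*b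
  | .odd, false, false, false, true => -(210*a*b^7) - 638*a^2*b^6 - 669*a^3*b^5 - 279*a^4*b^4 - 55*a^5*b^3 - 15*a^6*b^2
  | .odd, false, false, false, false => -(210*a*b^7) - 638*a^2*b^6 - 669*a^3*b^5 - 279*a^4*b^4 - 55*a^5*b^3 - 15*a^6*b^2
  | .even, true, true, true, true => 0
  | .even, true, true, true, false => 0
  | .even, true, true, false, true => -(60*a*b^7) - 150*a^2*b^6 - 139*a^3*b^5 - 77*a^4*b^4 - 39*a^5*b^3 - 10*a^6*b^2
  | .even, true, true, false, false => -(90*a*b^7) - 180*a^2*b^6 - 149*a^3*b^5 - 87*a^4*b^4 - 39*a^5*b^3 - 10*a^6*b^2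
  | .even, true, false, true, true => -(210*a*b^7) - 768*a^2*b^6 - 886*a^3*b^5 - 429*a^4*b^4 - 117*a^5*b^3 - 45*a^6*b^2 - 10*a^7*b
  | .even, true, false, true, false => -(210*a*b^7) - 768*a^2*b^6 - 886*a^3*b^5 - 429*a^4*b^4 - 117*a^5*b^3 - 45*a^6*b^2 - 10*a^7*b
  | .even, true, false, false, true => -(190*a*b^7) - 488*a^2*b^6 - 417*a^3*b^5 - 155*a^4*b^4 - 98*a^5*b^3 - 30*a^6*b^2
  | .even, true, false, false, false => -(210*a*b^7) - 528*a^2*b^6 - 415*a^3*b^5 - 155*a^4*b^4 - 98*a^5*b^3 - 30*a^6*b^2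
  | .even, false, true, true, true => -(420*a*b^7) - 1244*a^2*b^6 - 1412*a^3*b^5 - 880*a^4*b^4 - 433*a^5*b^3 - 184*a^6*b^2 - 53*a^7*b - 10*a^8
  | .even, false, true, true, false => -(420*a*b^7) - 1244*a^2*b^6 - 1412*a^3*b^5 - 880*a^4*b^4 - 433*a^5*b^3 - 184*a^6*b^2 - 53*a^7*b - 10*a^8
  | .even, false, true, false, true => -(390*a*b^7) - 1204*a^2*b^6 - 1482*a^3*b^5 - 1018*a^4*b^4 - 499*a^5*b^3 - 202*a^6*b^2 - 63*a^7*b - 10*a^8
  | .even, false, true, false, false => -(390*a*b^7) - 1234*a^2*b^6 - 1492*a^3*b^5 - 938*a^4*b^4 - 441*a^5*b^3 - 194*a^6*b^2 - 53*a^7*b - 10*a^8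
  | .even, false, false, true, true => -(210*a*b^7) - 677*a^2*b^6 - 799*a^3*b^5 - 445*a^4*b^4 - 163*a^5*b^3 - 58*a^6*b^2 - 10*a^7*b
  | .even, false, false, true, false => -(210*a*b^7) - 677*a^2*b^6 - 799*a^3*b^5 - 445*a^4*b^4 - 163*a^5*b^3 - 58*a^6*b^2 - 10*a^7*b
  | .even, false, false, false, true => -(210*a*b^7) - 677*a^2*b^6 - 799*a^3*b^5 - 445*a^4*b^4 - 163*a^5*b^3 - 58*a^6*b^2 - 10*a^7*b
  | .even, false, false, false, false => -(210*a*b^7) - 677*a^2*b^6 - 799*a^3*b^5 - 445*a^4*b^4 - 163*a^5*b^3 - 58*a^6*b^2 - 10*a^7*b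

/-- drift of the local part of the potential on a window: `s` is the mark of cell `j`, and
`b1,…,b5` are the states of cells `j+1,…,j+5` -/
noncomputable def LD (a b : ℝ) (s : Sym) (b1 b2 b3 b4 b5 : Bool) : ℝ :=
  cA a b * (pr a b s.bit b1 b2 false - (if b1 = false then 1 else 0))
  + cB a b * (pr a b s.bit b1 b2 false * pr a b b1 b2 b3 true
      - (if b1 = false ∧ b2 = true then 1 else 0))
  + cD a b * (pr a b s.bit b1 b2 true * pr a b b1 b2 b3 false * pr a b b2 b3 b4 true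
      - (if b1 = true ∧ b2 = false ∧ b3 = true then 1 else 0))
  - cE a b * (pr a b s.bit b1 b2 false * pr a b b1 b2 b3 true * pr a b b2 b3 b4 false
      - (if b1 = false ∧ b2 = true ∧ b3 = false then 1 else 0))
  - cG a b * (pr a b s.bit b1 b2 false * pr a b b1 b2 b3 true * pr a b b2 b3 b4 true
      * pr a b b3 b4 b5 false
      - (if b1 = false ∧ b2 = true ∧ b3 = true ∧ b4 = false then 1 else 0))
  - cF a b * (pr a b s.bit b1 b2 false * pr a b b1 b2 b3 true * pr a b b2 b3 b4 false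
      * pr a b b3 b4 b5 true
      - (if b1 = false ∧ b2 = true ∧ b3 = false ∧ b4 = true then 1 else 0))
  + cK a b * ((if nxt s b1 = .even then 1 else 0)
      - (if b1 = false then
          (if s.bit = true then 1 else if nxt s b1 = .odd then b else a)
            * (pr a b s.bit b1 b2 false * pr a b b1 b2 b3 false) else 0))

set_option maxRecDepth 10000 in
theorem window (a : ℝ) (h0 : 0 < a) (h1 : a < 1) (s : Sym) (b1 b2 b3 b4 b5 : Bool) :
    LD a (1 - a) s b1 b2 b3 b4 b5 + hh a (1 - a) (nxt s b1) b2 b3 b4 b5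
      - hh a (1 - a) s b1 b2 b3 b4
      ≤ - (if b1 = false ∧ b2 = true then 2 * a ^ 2 * (1 - a) ^ 3 else 0) := by
  have hb : 0 < 1 - a := by linarith
  have p0 : 0 ≤ (1 - a) ^ 8 := by positivity
  have p1 : 0 ≤ a * (1 - a) ^ 7 := by positivity
  have p2 : 0 ≤ a ^ 2 * (1 - a) ^ 6 := by positivity
  have p3 : 0 ≤ a ^ 3 * (1 - a) ^ 5 := by positivity
  have p4 : 0 ≤ a ^ 4 * (1 - a) ^ 4 := by positivity
  have p5 : 0 ≤ a ^ 5 * (1 - a) ^ 3 := by positivity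
  have p6 : 0 ≤ a ^ 6 * (1 - a) ^ 2 := by positivity
  have p7 : 0 ≤ a ^ 7 * (1 - a) := by positivity
  have p8 : 0 ≤ a ^ 8 := by positivity
  cases s <;> cases b1 <;> cases b2 <;> cases b3 <;> cases b4 <;> cases b5 <;>
    simp [LD, hh, nxt, Sym.bit, pr, rule, cA, cB, cD, cE, cF, cG, cK] <;>
    linarith

end Pool.Agent.K4H12.R210
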