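import Mathlib

/-!
Definitions: the `α`-asynchronous elementary cellular automaton 210 on a ring.
-/

open MeasureTheory ProbabilityTheory
open scoped ENNReal unitInterval

namespace Pool.Agent.K4H12.R210

/-- the local rule 210 applied to `(left, centre, right)` -/
def rule : Bool → Bool → Bool → Bool
  | true, true, true => true
  | true, true, false => true
  | true, false, true => false
  | true, false, false => true
  | false, true, true => false
  | false, true, false => false
  | false, false, true => true
  | false, false, false => false

/-- configurations on the ring `ℤ/nℤ` -/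
abbrev Conf (n : ℕ) := ZMod n → Bool

/-- One step of the dynamics: exactly the cells `i` with `u i = true` are updated by the rule,
all updates using the old configuration `x`. -/
def step {n : ℕ} (x : Conf n) (u : ZMod n → Bool) : Conf n :=
  fun i => if u i then rule (x (i - 1)) (x i) (x (i + 1)) else x i

/-- `traj x ω t` is the configuration `x^t` when `ω t` tells which cells are updated
at time `t`. -/
def traj {n : ℕ} (x : Conf n) (ω : ℕ → ZMod n → Bool) : ℕ → Conf n
  | 0 => x
  | t + 1 => step (traj x ω t) (ω t)

/-- A fixed point: unchanged by every update. -/
def IsFixed {n : ℕ} (x : Conf n) : Prop := ∀ u : ZMod n → Bool, step x u = x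

/-- the first time at which the configuration is a fixed point (`∞` if there is none) -/
noncomputable def hit {n : ℕ} (x : Conf n) (ω : ℕ → ZMod n → Bool) : ℝ≥0∞ :=
  ⨅ t ∈ {t : ℕ | IsFixed (traj x ω t)}, (t : ℝ≥0∞)

/-- the law of the update choices: all `ω t i` are independent, `true` with probability `α` -/
noncomputable def law (n : ℕ) [NeZero n] (α : I) : Measure (ℕ → ZMod n → Bool) :=
  Measure.infinitePi fun _ : ℕ => Measure.pi fun _ : ZMod n => bernoulliMeasure true false α

/-- the relaxation time `R_α(n)`, the maximum over `x` of the expected absorption time -/
noncomputable def relaxTime (n : ℕ) [NeZero n] (α : I) : ℝ≥0∞ :=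
  ⨆ x : Conf n, ∫⁻ ω, hit x ω ∂(law n α)

end Pool.Agent.K4H12.R210
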