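import Pool.Agent.K4H12.R210.Marks

open MeasureTheory ProbabilityTheory
open scoped ENNReal unitInterval

namespace Pool.Agent.K4H12.R210

/-- probability that cell `i` is in state `t` after one step from `x` -/
noncomputable def P {n : ℕ} (a : ℝ) (x : Conf n) (i : ZMod n) (t : Bool) : ℝ :=
  pr a (1 - a) (x (i - 1)) (x i) (x (i + 1)) t

/-- indicator of `y i = t` -/
noncomputable def ind {n : ℕ} (y : Conf n) (i : ZMod n) (t : Bool) : ℝ := if y i = t then 1 else 0

theorem Em {n m : ℕ} [NeZero n] (a : ℝ) (x : Conf n) (c : Fin m → ZMod n)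
    (hc : Function.Injective c) (t : Fin m → Bool) :
    ∑ u, W a u * ∏ k, ind (step x u) (c k) (t k) = ∏ k, P a x (c k) (t k) := by
  have := prodE a c hc (fun k b => if (if b then rule (x (c k - 1)) (x (c k)) (x (c k + 1))
    else x (c k)) = t k then 1 else 0)
  unfold ind step P pr
  rw [this]
  refine Finset.prod_congr rfl fun k _ => ?_
  simp

theorem E1 {n : ℕ} [NeZero n] (a : ℝ) (x : Conf n) (i : ZMod n) (t : Bool) :
    ∑ u, W a u * ind (step x u) i t = P a x i t := by
  have := Em a x ![i] (fun p q _ => Subsingleton.elim p q) ![t]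
  simpa using this

theorem E2 {n : ℕ} [NeZero n] (a : ℝ) (x : Conf n) {i j : ZMod n} (hij : i ≠ j) (t s : Bool) :
    ∑ u, W a u * (ind (step x u) i t * ind (step x u) j s) = P a x i t * P a x j s := by
  have := Em a x ![i, j] (by
    intro p q h
    fin_cases p <;> fin_cases q <;> simp_all [hij.symm]) ![t, s]
  simpa [Fin.prod_univ_succ] using this

theorem E3 {n : ℕ} [NeZero n] (a : ℝ) (x : Conf n) {i j k : ZMod n} (hij : i ≠ j) (hik : i ≠ k)
    (hjk : j ≠ k) (t s r : Bool) :
    ∑ u, W a u * (ind (step x u) i t * ind (step x u) j s * ind (step x u) k r)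
      = P a x i t * P a x j s * P a x k r := by
  have := Em a x ![i, j, k] (by
    intro p q h
    fin_cases p <;> fin_cases q <;> simp_all [hij.symm, hik.symm, hjk.symm]) ![t, s, r]
  simpa [Fin.prod_univ_succ, mul_assoc] using this

theorem E4 {n : ℕ} [NeZero n] (a : ℝ) (x : Conf n) {i j k l : ZMod n} (hij : i ≠ j) (hik : i ≠ k)
    (hil : i ≠ l) (hjk : j ≠ k) (hjl : j ≠ l) (hkl : k ≠ l) (t s r v : Bool) :
    ∑ u, W a u * (ind (step x u) i t * ind (step x u) j s * ind (step x u) k r
        * ind (step x u) l v)
      = P a x i t * P a x j s * P a x k r * P a x l v := by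
  have := Em a x ![i, j, k, l] (by
    intro p q h
    fin_cases p <;> fin_cases q <;>
      simp_all [hij.symm, hik.symm, hjk.symm, hil.symm, hjl.symm, hkl.symm]) ![t, s, r, v]
  simpa [Fin.prod_univ_succ, mul_assoc] using this

/-- the probability that `i` belongs to the matching used to bound the number of even marks -/
noncomputable def pM {n : ℕ} (a : ℝ) (x : Conf n) (i : ZMod n) : ℝ :=
  if x i = false then
    (if x (i - 1) = true then 1 else if mark x i = .odd then 1 - a else a)
      * (P a x i false * P a x (i + 1) false)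
  else 0

open Classical in
/-- the matching -/
noncomputable def MM {n : ℕ} [NeZero n] (x : Conf n) (u : ZMod n → Bool) : Finset (ZMod n) :=
  Finset.univ.filter fun i => x i = false ∧ step x u i = false ∧ step x u (i + 1) = false ∧
    (mark x i = .odd ↔ step x u (st x i) = false)

theorem MM_card_le {n : ℕ} [NeZero n] {x : Conf n} (hx : ∃ i, x i = true)
    (u : ZMod n → Bool) : (MM x u).card ≤ ev (step x u) := by
  classical
  refine matching_le _ _ fun j hj => ?_
  unfold MM at hj ⊢
  simp only [Finset.mem_filter, Finset.mem_univ, true_and] at hj ⊢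
  obtain ⟨h1, h2, h3, h4⟩ := hj
  refine ⟨h2, h3, ?_⟩
  rintro ⟨g1, _, _, g4⟩
  rw [st_succ hx h1, ← h4, mark_succ hx, g1] at g4
  cases hm : mark x j with
  | one =>
    have := mark_bit (x := x) j
    rw [hm, h1] at this
    simp [Sym.bit] at this
  | odd => rw [hm] at g4; simp [nxt] at g4
  | even => rw [hm] at g4; simp [nxt] at g4

theorem E_MM {n : ℕ} [NeZero n] (hn : 2 ≤ n) (a : ℝ) {x : Conf n} (hx : ∃ i, x i = true) :
    ∑ u, W a u * ((MM x u).card : ℝ) = ∑ i, pM a x i := by
  classical
  have h1 : ∀ u, ((MM x u).card : ℝ) = ∑ i, (if x i = false ∧ step x u i = false ∧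
      step x u (i + 1) = false ∧ (mark x i = .odd ↔ step x u (st x i) = false)
      then (1 : ℝ) else 0) := by
    intro u
    unfold MM
    rw [Finset.card_filter]
    push_cast
    rfl
  simp only [h1, Finset.mul_sum]
  rw [Finset.sum_comm]
  refine Finset.sum_congr rfl fun i _ => ?_
  have h10 : (1 : ZMod n) ≠ 0 := by
    intro h
    have h' : ((1 : ℕ) : ZMod n) = 0 := by exact_mod_cast h
    rw [ZMod.natCast_eq_zero_iff] at h'
    have := Nat.le_of_dvd one_pos h'
    omega
  have hi1 : i ≠ i + 1 := by
    intro h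
    exact h10 (by simpa using h.symm)
  unfold pM
  rcases hxi : x i with _ | _
  · simp only [true_and, if_true]
    rcases hxp : x (i - 1) with _ | _
    · have hst := st_ne hx hxp
      have hst' := st_ne_succ hx hxi
      have hb := mark_bit (x := x) i
      rw [hxi] at hb
      have hp0 : P a x (st x i) false = 1 - a := by
        unfold P pr
        rw [st_prev hx, st_zero hx hxi, st_next hx hxi hxp]
        simp [rule]
      have hp1 : P a x (st x i) true = a := by
        unfold P pr
        rw [st_prev hx, st_zero hx hxi, st_next hx hxi hxp]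
        simp [rule]
      cases hm : mark x i with
      | one => rw [hm] at hb; simp [Sym.bit] at hb
      | odd =>
        have := E3 a x hst hst' hi1 false false false
        rw [hp0] at this
        simp only [Bool.false_eq_true, if_false, if_true]
        rw [← mul_assoc, ← this]
        refine Finset.sum_congr rfl fun u _ => ?_
        congr 1
        unfold ind
        by_cases h1 : step x u i = false <;> by_cases h2 : step x u (i + 1) = false <;>
          by_cases h3 : step x u (st x i) = false <;> simp [h1, h2, h3]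
      | even =>
        have := E3 a x hst hst' hi1 true false false
        rw [hp1] at this
        simp only [Bool.false_eq_true, if_false, reduceCtorEq]
        rw [← mul_assoc, ← this]
        refine Finset.sum_congr rfl fun u _ => ?_
        congr 1
        unfold ind
        by_cases h1 : step x u i = false <;> by_cases h2 : step x u (i + 1) = false <;>
          by_cases h3 : step x u (st x i) = true <;> simp [h1, h2, h3]
    · have hst : st x i = i := by
        have := st_succ' hxp
        simpa using this
      have hm : mark x i = .odd := by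
        have := mark_succ hx (i - 1)
        rw [sub_add_cancel, hxi] at this
        rw [this]
        unfold mark
        rw [if_pos hxp]
        rfl
      rw [hst, hm]
      have := E2 a x hi1 false false
      simp only [if_true, one_mul]
      rw [← this]
      refine Finset.sum_congr rfl fun u _ => ?_
      congr 1
      unfold ind
      by_cases h1 : step x u i = false <;> by_cases h2 : step x u (i + 1) = false <;>
        simp [h1, h2]
  · simp

/-- local part of the potential -/
noncomputable def locV {n : ℕ} (a : ℝ) (y : Conf n) (j : ZMod n) : ℝ :=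
  cA a (1 - a) * ind y (j + 1) false
  + cB a (1 - a) * (ind y (j + 1) false * ind y (j + 2) true)
  + cD a (1 - a) * (ind y (j + 1) true * ind y (j + 2) false * ind y (j + 3) true)
  - cE a (1 - a) * (ind y (j + 1) false * ind y (j + 2) true * ind y (j + 3) false)
  - cG a (1 - a) * (ind y (j + 1) false * ind y (j + 2) true * ind y (j + 3) true
      * ind y (j + 4) false)
  - cF a (1 - a) * (ind y (j + 1) false * ind y (j + 2) true * ind y (j + 3) false
      * ind y (j + 4) true)

/-- the potential -/
noncomputable def V0 {n : ℕ} [NeZero n] (a : ℝ) (y : Conf n) : ℝ :=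
  ∑ j, locV a y j - cK a (1 - a) * ev y

/-- expectation of the local part -/
noncomputable def eloc {n : ℕ} (a : ℝ) (x : Conf n) (j : ZMod n) : ℝ :=
  cA a (1 - a) * P a x (j + 1) false
  + cB a (1 - a) * (P a x (j + 1) false * P a x (j + 2) true)
  + cD a (1 - a) * (P a x (j + 1) true * P a x (j + 2) false * P a x (j + 3) true)
  - cE a (1 - a) * (P a x (j + 1) false * P a x (j + 2) true * P a x (j + 3) false)
  - cG a (1 - a) * (P a x (j + 1) false * P a x (j + 2) true * P a x (j + 3) true
      * P a x (j + 4) false)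
  - cF a (1 - a) * (P a x (j + 1) false * P a x (j + 2) true * P a x (j + 3) false
      * P a x (j + 4) true)

theorem natCast_ne {n : ℕ} (hn : 4 ≤ n) (k : ℕ) (h0 : 0 < k) (hk : k < 4) :
    ((k : ℕ) : ZMod n) ≠ 0 := by
  intro h
  rw [ZMod.natCast_eq_zero_iff] at h
  have := Nat.le_of_dvd h0 h
  omega

theorem E_loc {n : ℕ} [NeZero n] (hn : 4 ≤ n) (a : ℝ) (x : Conf n) (j : ZMod n) :
    ∑ u, W a u * locV a (step x u) j = eloc a x j := by
  have h1 : (1 : ZMod n) ≠ 0 := by simpa using natCast_ne hn 1 (by norm_num) (by norm_num)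
  have h2 : (2 : ZMod n) ≠ 0 := by simpa using natCast_ne hn 2 (by norm_num) (by norm_num)
  have h3 : (3 : ZMod n) ≠ 0 := by simpa using natCast_ne hn 3 (by norm_num) (by norm_num)
  have n12 : j + 1 ≠ j + 2 := fun h => h1 (by linear_combination -h)
  have n13 : j + 1 ≠ j + 3 := fun h => h2 (by linear_combination -h)
  have n14 : j + 1 ≠ j + 4 := fun h => h3 (by linear_combination -h)
  have n23 : j + 2 ≠ j + 3 := fun h => h1 (by linear_combination -h)
  have n24 : j + 2 ≠ j + 4 := fun h => h2 (by linear_combination -h)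
  have n34 : j + 3 ≠ j + 4 := fun h => h1 (by linear_combination -h)
  unfold eloc
  rw [← E4 a x n12 n13 n14 n23 n24 n34 false true true false,
    ← E4 a x n12 n13 n14 n23 n24 n34 false true false true,
    ← E3 a x n12 n13 n23 true false true,
    ← E3 a x n12 n13 n23 false true false, ← E2 a x n12 false true, ← E1 a x (j + 1) false]
  simp only [Finset.mul_sum]
  rw [← Finset.sum_add_distrib, ← Finset.sum_add_distrib, ← Finset.sum_sub_distrib,
    ← Finset.sum_sub_distrib, ← Finset.sum_sub_distrib]
  refine Finset.sum_congr rfl fun u _ => ?_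
  unfold locV
  ring

theorem window_eq {n : ℕ} [NeZero n] (a : ℝ) {x : Conf n} (hx : ∃ i, x i = true) (j : ZMod n) :
    eloc a x j - locV a x j
      + cK a (1 - a) * ((if mark x (j + 1) = .even then 1 else 0) - pM a x (j + 1))
    = LD a (1 - a) (mark x j) (x (j + 1)) (x (j + 2)) (x (j + 3)) (x (j + 4)) (x (j + 5)) := by
  have e1 : ∀ t, P a x (j + 1) t = pr a (1 - a) (mark x j).bit (x (j + 1)) (x (j + 2)) t := by
    intro t
    unfold P
    rw [mark_bit, show j + 1 - 1 = j by ring, show j + 1 + 1 = j + 2 by ring]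
  have e2 : ∀ t, P a x (j + 2) t = pr a (1 - a) (x (j + 1)) (x (j + 2)) (x (j + 3)) t := by
    intro t
    unfold P
    rw [show j + 2 - 1 = j + 1 by ring, show j + 2 + 1 = j + 3 by ring]
  have e3 : ∀ t, P a x (j + 3) t = pr a (1 - a) (x (j + 2)) (x (j + 3)) (x (j + 4)) t := by
    intro t
    unfold P
    rw [show j + 3 - 1 = j + 2 by ring, show j + 3 + 1 = j + 4 by ring]
  have e4 : ∀ t, P a x (j + 4) t = pr a (1 - a) (x (j + 3)) (x (j + 4)) (x (j + 5)) t := by
    intro t
    unfold P
    rw [show j + 4 - 1 = j + 3 by ring, show j + 4 + 1 = j + 5 by ring]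
  have e5 : pM a x (j + 1) = (if x (j + 1) = false then
      (if (mark x j).bit = true then 1 else if nxt (mark x j) (x (j + 1)) = .odd then 1 - a else a)
        * (pr a (1 - a) (mark x j).bit (x (j + 1)) (x (j + 2)) false
          * pr a (1 - a) (x (j + 1)) (x (j + 2)) (x (j + 3)) false) else 0) := by
    unfold pM
    rw [← mark_succ hx, mark_bit, e1, show j + 1 + 1 = j + 2 by ring, e2, mark_bit,
      show j + 1 - 1 = j by ring]
  unfold eloc locV LD
  rw [e1, e1, e2, e2, e3, e3, e4, e4, e5, ← mark_succ hx]
  generalize pr a (1 - a) (mark x j).bit (x (j + 1)) (x (j + 2)) false = z1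
  generalize pr a (1 - a) (mark x j).bit (x (j + 1)) (x (j + 2)) true = z2
  generalize pr a (1 - a) (x (j + 1)) (x (j + 2)) (x (j + 3)) true = z3
  generalize pr a (1 - a) (x (j + 1)) (x (j + 2)) (x (j + 3)) false = z4
  generalize pr a (1 - a) (x (j + 2)) (x (j + 3)) (x (j + 4)) true = z5
  generalize pr a (1 - a) (x (j + 2)) (x (j + 3)) (x (j + 4)) false = z6
  generalize pr a (1 - a) (x (j + 3)) (x (j + 4)) (x (j + 5)) true = z7
  generalize pr a (1 - a) (x (j + 3)) (x (j + 4)) (x (j + 5)) false = z8
  generalize cA a (1 - a) = kA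
  generalize cB a (1 - a) = kB
  generalize cD a (1 - a) = kD
  generalize cE a (1 - a) = kE
  generalize cG a (1 - a) = kG
  generalize cF a (1 - a) = kF
  generalize cK a (1 - a) = kK
  unfold ind
  generalize x (j + 1) = b1
  generalize x (j + 2) = b2
  generalize x (j + 3) = b3
  generalize x (j + 4) = b4
  cases b1 <;> cases b2 <;> cases b3 <;> cases b4 <;> simp <;> ring

theorem exists_boundary {n : ℕ} [NeZero n] {x : Conf n} (h1 : ∃ i, x i = true)
    (h0 : ∃ i, x i = false) : ∃ j, x j = false ∧ x (j + 1) = true := by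
  by_contra hcon
  push Not at hcon
  obtain ⟨i0, hi0⟩ := h0
  obtain ⟨i1, hi1⟩ := h1
  have h : ∀ k : ℕ, x (i0 + k) = false := by
    intro k
    induction k with
    | zero => simpa using hi0
    | succ k ih =>
      have := hcon _ ih
      push_cast
      rw [← add_assoc]
      simpa using this
  have := h (i1 - i0).val
  rw [ZMod.natCast_val, ZMod.cast_id', id, add_sub_cancel, hi1] at this
  exact absurd this (by simp)

theorem nonfixed {n : ℕ} {x : Conf n} (h : ¬ IsFixed x) :
    (∃ i, x i = true) ∧ ∃ i, x i = false := by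
  constructor
  · by_contra h1
    push Not at h1
    have h1' : ∀ i, x i = false := fun i => by simpa using h1 i
    refine h fun u => ?_
    funext i
    simp [step, h1', rule]
  · by_contra h1
    push Not at h1
    have h1' : ∀ i, x i = true := fun i => by simpa using h1 i
    refine h fun u => ?_
    funext i
    simp [step, h1', rule]

theorem cK_nonneg {a : ℝ} (h0 : 0 < a) (h1 : a < 1) : 0 ≤ cK a (1 - a) := by
  have hb : 0 < 1 - a := by linarith
  unfold cK
  positivity

theorem drift {n : ℕ} [NeZero n] (hn : 4 ≤ n) {a : ℝ} (h0 : 0 < a) (h1 : a < 1) (x : Conf n)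
    (hx : ¬ IsFixed x) :
    ∑ u, W a u * V0 a (step x u) ≤ V0 a x - 2 * a ^ 2 * (1 - a) ^ 3 := by
  classical
  obtain ⟨hxt, hxf⟩ := nonfixed hx
  have hK := cK_nonneg h0 h1
  have hA : ∑ u, W a u * V0 a (step x u)
      = ∑ j, eloc a x j - cK a (1 - a) * ∑ u, W a u * (ev (step x u) : ℝ) := by
    have : ∀ u, W a u * V0 a (step x u) = ∑ j, W a u * locV a (step x u) j
        - cK a (1 - a) * (W a u * (ev (step x u) : ℝ)) := by
      intro u
      unfold V0
      rw [mul_sub, Finset.mul_sum]
      ring
    simp only [this]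
    rw [Finset.sum_sub_distrib, Finset.sum_comm, ← Finset.mul_sum]
    congr 1
    exact Finset.sum_congr rfl fun j _ => E_loc hn a x j
  have hB : ∑ i, pM a x i ≤ ∑ u, W a u * (ev (step x u) : ℝ) := by
    rw [← E_MM (by omega) a hxt]
    refine Finset.sum_le_sum fun u _ => ?_
    refine mul_le_mul_of_nonneg_left ?_ (W_nonneg h0.le h1.le u)
    exact_mod_cast MM_card_le hxt u
  have hC : (ev x : ℝ) = ∑ j, (if mark x (j + 1) = .even then (1 : ℝ) else 0) := by
    have h2 : ∑ j, (if mark x (j + 1) = .even then (1 : ℝ) else 0)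
        = ∑ j, (if mark x j = .even then (1 : ℝ) else 0) :=
      Equiv.sum_comp (Equiv.addRight (1 : ZMod n))
        (fun j => (if mark x j = .even then (1 : ℝ) else 0))
    rw [h2]
    unfold ev
    rw [Finset.card_filter]
    push_cast
    rfl
  have hD : ∑ i, pM a x i = ∑ j, pM a x (j + 1) := by
    have h2 := Equiv.sum_comp (Equiv.addRight (1 : ZMod n)) (fun j => pM a x j)
    simp only [Equiv.coe_addRight] at h2
    rw [h2]
  have hE : ∑ j, hh a (1 - a) (nxt (mark x j) (x (j + 1))) (x (j + 2)) (x (j + 3)) (x (j + 4))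
        (x (j + 5))
      = ∑ j, hh a (1 - a) (mark x j) (x (j + 1)) (x (j + 2)) (x (j + 3)) (x (j + 4)) := by
    have h2 := Equiv.sum_comp (Equiv.addRight (1 : ZMod n))
      (fun j => hh a (1 - a) (mark x j) (x (j + 1)) (x (j + 2)) (x (j + 3)) (x (j + 4)))
    simp only [Equiv.coe_addRight] at h2
    rw [← h2]
    refine Finset.sum_congr rfl fun j _ => ?_
    rw [← mark_succ hxt, show j + 1 + 1 = j + 2 by ring, show j + 1 + 2 = j + 3 by ring,
      show j + 1 + 3 = j + 4 by ring, show j + 1 + 4 = j + 5 by ring]
  have hF : ∑ j, (eloc a x j - locV a x j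
      + cK a (1 - a) * ((if mark x (j + 1) = .even then 1 else 0) - pM a x (j + 1)))
      ≤ - (2 * a ^ 2 * (1 - a) ^ 3) := by
    have h3 : ∀ j, eloc a x j - locV a x j
      + cK a (1 - a) * ((if mark x (j + 1) = .even then 1 else 0) - pM a x (j + 1))
      ≤ hh a (1 - a) (mark x j) (x (j + 1)) (x (j + 2)) (x (j + 3)) (x (j + 4))
        - hh a (1 - a) (nxt (mark x j) (x (j + 1))) (x (j + 2)) (x (j + 3)) (x (j + 4))
          (x (j + 5))
        - (if x (j + 1) = false ∧ x (j + 2) = true then 2 * a ^ 2 * (1 - a) ^ 3 else 0) := by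
      intro j
      rw [window_eq a hxt j]
      have := window a h0 h1 (mark x j) (x (j + 1)) (x (j + 2)) (x (j + 3)) (x (j + 4))
        (x (j + 5))
      linarith
    refine (Finset.sum_le_sum fun j _ => h3 j).trans ?_
    rw [Finset.sum_sub_distrib, Finset.sum_sub_distrib, hE, sub_self, zero_sub]
    refine neg_le_neg ?_
    obtain ⟨j, hj1, hj2⟩ := exists_boundary hxt hxf
    have hb : 0 < 1 - a := by linarith
    have h4 := Finset.single_le_sum (s := Finset.univ)
      (f := fun j => (if x (j + 1) = false ∧ x (j + 2) = true then 2 * a ^ 2 * (1 - a) ^ 3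
        else 0)) (fun i _ => by
          split_ifs
          · positivity
          · exact le_refl _) (Finset.mem_univ (j - 1))
    rw [show j - 1 + 1 = j by ring, show j - 1 + 2 = j + 1 by ring, if_pos ⟨hj1, hj2⟩] at h4
    exact h4
  have hG : ∑ j, (eloc a x j - locV a x j
      + cK a (1 - a) * ((if mark x (j + 1) = .even then 1 else 0) - pM a x (j + 1)))
      = ∑ j, eloc a x j - ∑ j, locV a x j + cK a (1 - a) * (ev x - ∑ i, pM a x i) := by
    rw [Finset.sum_add_distrib, Finset.sum_sub_distrib, ← Finset.mul_sum,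
      Finset.sum_sub_distrib, hC, hD]
  rw [hG] at hF
  rw [hA]
  have hH : cK a (1 - a) * ∑ i, pM a x i
      ≤ cK a (1 - a) * ∑ u, W a u * (ev (step x u) : ℝ) := mul_le_mul_of_nonneg_left hB hK
  unfold V0
  linarith

end Pool.Agent.K4H12.R210
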