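import Pool.Agent.K4H12.R210.Defs

open MeasureTheory ProbabilityTheory
open scoped ENNReal unitInterval

namespace Pool.Agent.K4H12.R210

/-- head-tail decomposition of an i.i.d. sequence -/
theorem map_cons {X : Type*} [MeasurableSpace X] (ν : Measure X) [IsProbabilityMeasure ν] :
    (ν.prod (Measure.infinitePi fun _ : ℕ => ν)).map
      (fun p : X × (ℕ → X) => (fun t => Nat.casesOn t p.1 p.2 : ℕ → X))
      = Measure.infinitePi fun _ : ℕ => ν := by
  have hm : Measurable
      (fun p : X × (ℕ → X) => (fun t => Nat.casesOn t p.1 p.2 : ℕ → X)) := by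
    refine measurable_pi_lambda _ fun t => ?_
    cases t with
    | zero => exact measurable_fst
    | succ t => exact (measurable_pi_apply t).comp measurable_snd
  refine Measure.eq_infinitePi _ fun s t ht => ?_
  classical
  set s' : Finset ℕ := s.preimage Nat.succ (Nat.succ_injective.injOn) with hs'
  rw [Measure.map_apply hm (MeasurableSet.pi (Finset.countable_toSet s) fun i _ => ht i)]
  have hpre : (fun p : X × (ℕ → X) => (fun t => Nat.casesOn t p.1 p.2 : ℕ → X)) ⁻¹'
      (Set.pi (s : Set ℕ) t) =
      (if 0 ∈ s then t 0 else Set.univ) ×ˢ (Set.pi (s' : Set ℕ) fun i => t (i + 1)) := by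
    ext ⟨p, q⟩
    simp only [Set.mem_preimage, Set.mem_pi, Finset.mem_coe, Set.mem_prod, hs',
      Finset.mem_preimage]
    constructor
    · intro h
      constructor
      · split_ifs with h0
        · exact h 0 h0
        · trivial
      · intro i hi
        exact h (i + 1) hi
    · rintro ⟨h0, h1⟩ i hi
      cases i with
      | zero => simpa [hi] using h0
      | succ i => exact h1 i hi
  rw [hpre, Measure.prod_prod, Measure.infinitePi_pi _ (fun i _ => ht (i + 1))]
  by_cases h0 : 0 ∈ s
  · have : s = insert 0 (s'.map ⟨Nat.succ, Nat.succ_injective⟩) := by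
      ext i
      simp only [Finset.mem_insert, Finset.mem_map, Function.Embedding.coeFn_mk, hs',
        Finset.mem_preimage]
      constructor
      · intro hi
        cases i with
        | zero => left; rfl
        | succ i => right; exact ⟨i, hi, rfl⟩
      · rintro (rfl | ⟨a, ha, rfl⟩)
        · exact h0
        · exact ha
    conv_rhs => rw [this]
    rw [Finset.prod_insert (by simp), Finset.prod_map]
    simp [h0]
  · have : s = (s'.map ⟨Nat.succ, Nat.succ_injective⟩) := by
      ext i
      simp only [Finset.mem_map, Function.Embedding.coeFn_mk, hs',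
        Finset.mem_preimage]
      constructor
      · intro hi
        cases i with
        | zero => exact absurd hi h0
        | succ i => exact ⟨i, hi, rfl⟩
      · rintro ⟨a, ha, rfl⟩
        exact ha
    conv_rhs => rw [this]
    rw [Finset.prod_map]
    simp [h0]

/-- weight of one update choice at a cell -/
noncomputable def wt (a : ℝ) (b : Bool) : ℝ := if b then a else 1 - a

/-- weight of a choice of the updated cells -/
noncomputable def W {n : ℕ} [NeZero n] (a : ℝ) (u : ZMod n → Bool) : ℝ := ∏ i, wt a (u i)

theorem W_nonneg {n : ℕ} [NeZero n] {a : ℝ} (h0 : 0 ≤ a) (h1 : a ≤ 1) (u : ZMod n → Bool) :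
    0 ≤ W a u := by
  refine Finset.prod_nonneg fun i _ => ?_
  unfold wt
  split_ifs <;> linarith

theorem lint_pi {n : ℕ} [NeZero n] (α : I) (G : (ZMod n → Bool) → ℝ≥0∞) :
    ∫⁻ u, G u ∂(Measure.pi fun _ : ZMod n => bernoulliMeasure true false α)
      = ∑ u, ENNReal.ofReal (W (α : ℝ) u) * G u := by
  rw [lintegral_fintype]
  refine Finset.sum_congr rfl fun u _ => ?_
  rw [Measure.pi_singleton, mul_comm]
  congr 1
  unfold W
  rw [ENNReal.ofReal_prod_of_nonneg]
  · refine Finset.prod_congr rfl fun i _ => ?_
    unfold wt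
    rcases h : u i with _ | _
    · rw [bernoulliMeasure_apply_of_notMem_of_mem _ (MeasurableSet.singleton _)
        (by simp) (by simp)]
      simp only [Bool.false_eq_true, if_false]
      rw [← ENNReal.ofReal_coe_nnreal]
      rfl
    · rw [bernoulliMeasure_apply_of_mem_of_notMem _ (MeasurableSet.singleton _)
        (by simp) (by simp)]
      simp only [if_true]
      rw [← ENNReal.ofReal_coe_nnreal]
      rfl
  · intro i _
    unfold wt
    have := α.2.1
    have := α.2.2
    split_ifs <;> linarith

theorem traj_cons {n : ℕ} (x : Conf n) (u : ZMod n → Bool) (ω : ℕ → ZMod n → Bool) (t : ℕ) :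
    traj x (fun t => Nat.casesOn t u ω) (t + 1) = traj (step x u) ω t := by
  induction t with
  | zero => rfl
  | succ t ih =>
    show step (traj x _ (t + 1)) _ = step (traj (step x u) ω t) (ω t)
    rw [ih]

theorem measurable_traj {n : ℕ} [NeZero n] (x : Conf n) (t : ℕ) :
    Measurable (fun ω : ℕ → ZMod n → Bool => traj x ω t) := by
  induction t with
  | zero => exact measurable_const
  | succ t ih =>
    have h2 : Measurable (fun p : Conf n × (ZMod n → Bool) => step p.1 p.2) :=
      Measurable.of_discrete
    exact h2.comp (ih.prodMk (measurable_pi_apply t))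

open Classical in
/-- probability that the configuration at time `t` is not a fixed point -/
noncomputable def q {n : ℕ} [NeZero n] (α : I) (t : ℕ) (x : Conf n) : ℝ≥0∞ :=
  ∫⁻ ω, (if IsFixed (traj x ω t) then 0 else 1) ∂(law n α)

open Classical in
theorem measurable_ind {n : ℕ} [NeZero n] (x : Conf n) (t : ℕ) :
    Measurable (fun ω : ℕ → ZMod n → Bool =>
      (if IsFixed (traj x ω t) then 0 else 1 : ℝ≥0∞)) := by
  have h : Measurable (fun y : Conf n => (if IsFixed y then 0 else 1 : ℝ≥0∞)) :=
    Measurable.of_discrete
  exact h.comp (measurable_traj x t)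

open Classical in
theorem q_zero {n : ℕ} [NeZero n] (α : I) (x : Conf n) :
    q α 0 x = if IsFixed x then 0 else 1 := by
  unfold q law
  by_cases h : IsFixed x
  · have : ∀ ω : ℕ → ZMod n → Bool, (if IsFixed (traj x ω 0) then 0 else 1 : ℝ≥0∞) = 0 :=
      fun ω => if_pos h
    rw [if_pos h, lintegral_congr this, lintegral_const, zero_mul]
  · have : ∀ ω : ℕ → ZMod n → Bool, (if IsFixed (traj x ω 0) then 0 else 1 : ℝ≥0∞) = 1 :=
      fun ω => if_neg h
    rw [if_neg h, lintegral_congr this, lintegral_const, measure_univ, mul_one]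

theorem q_succ {n : ℕ} [NeZero n] (α : I) (t : ℕ) (x : Conf n) :
    q α (t + 1) x = ∑ u, ENNReal.ofReal (W (α : ℝ) u) * q α t (step x u) := by
  classical
  unfold q law
  have hm : Measurable
      (fun p : (ZMod n → Bool) × (ℕ → ZMod n → Bool) =>
        (fun t => Nat.casesOn t p.1 p.2 : ℕ → ZMod n → Bool)) := by
    refine measurable_pi_lambda _ fun t => ?_
    cases t with
    | zero => exact measurable_fst
    | succ t => exact (measurable_pi_apply t).comp measurable_snd
  conv_lhs => rw [← map_cons (Measure.pi fun _ : ZMod n => bernoulliMeasure true false α)]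
  rw [lintegral_map (measurable_ind x (t + 1)) hm, lintegral_prod, lint_pi]
  · refine Finset.sum_congr rfl fun u _ => ?_
    refine congrArg (fun z => ENNReal.ofReal (W (α : ℝ) u) * z) (lintegral_congr fun ω => ?_)
    have h := traj_cons x u ω t
    by_cases h2 : IsFixed (traj (step x u) ω t)
    · rw [if_pos h2]
      exact if_pos (by rw [← h] at h2; exact h2)
    · rw [if_neg h2]
      exact if_neg (by rw [← h] at h2; exact h2)
  · exact ((measurable_ind x (t + 1)).comp hm).aemeasurable

open Classical in
theorem hit_le {n : ℕ} (x : Conf n) (ω : ℕ → ZMod n → Bool) :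
    hit x ω ≤ ∑' t, (if IsFixed (traj x ω t) then 0 else 1 : ℝ≥0∞) := by
  by_cases h : ∃ t, IsFixed (traj x ω t)
  · have h1 : hit x ω ≤ (Nat.find h : ℝ≥0∞) :=
      iInf₂_le (Nat.find h) (Nat.find_spec h)
    refine h1.trans ?_
    have h2 : ((Nat.find h : ℕ) : ℝ≥0∞) =
        ∑ t ∈ Finset.range (Nat.find h), (if IsFixed (traj x ω t) then 0 else 1 : ℝ≥0∞) := by
      rw [Finset.sum_congr rfl (g := fun _ => (1 : ℝ≥0∞))]
      · simp
      · intro t ht
        rw [if_neg (Nat.find_min h (Finset.mem_range.1 ht))]
    rw [h2]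
    exact ENNReal.sum_le_tsum _
  · push Not at h
    have : ∀ t, (if IsFixed (traj x ω t) then 0 else 1 : ℝ≥0∞) = 1 := fun t => if_neg (h t)
    simp only [this, ENNReal.tsum_const_eq_top_of_ne_zero one_ne_zero, le_top]

theorem sum_W {n : ℕ} [NeZero n] (a : ℝ) : ∑ u : ZMod n → Bool, W a u = 1 := by
  have := Fintype.piFinset_univ (α := ZMod n) (β := fun _ => Bool)
  unfold W
  rw [← this, ← Finset.prod_univ_sum]
  simp [wt]

/-- Foster's criterion. -/
theorem foster {n : ℕ} [NeZero n] (α : I) (V : Conf n → ℝ) (c : ℝ) (hc : 0 < c)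
    (hV : ∀ x, 0 ≤ V x)
    (hd : ∀ x, ¬ IsFixed x → ∑ u, W (α : ℝ) u * V (step x u) ≤ V x - c) (x : Conf n) :
    ∫⁻ ω, hit x ω ∂(law n α) ≤ ENNReal.ofReal (V x / c) := by
  classical
  have hW : ∀ u : ZMod n → Bool, 0 ≤ W (α : ℝ) u := W_nonneg α.2.1 α.2.2
  have key : ∀ N x, ∑ t ∈ Finset.range N, q α t x ≤ ENNReal.ofReal (V x / c) := by
    intro N
    induction N with
    | zero => intro x; simp
    | succ N ih =>
      intro x
      rw [Finset.sum_range_succ']
      have h1 : ∑ t ∈ Finset.range N, q α (t + 1) x
          ≤ ENNReal.ofReal (∑ u, W (α : ℝ) u * (V (step x u) / c)) := by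
        simp only [q_succ]
        rw [Finset.sum_comm, ENNReal.ofReal_sum_of_nonneg]
        · refine Finset.sum_le_sum fun u _ => ?_
          rw [← Finset.mul_sum, ENNReal.ofReal_mul (hW u)]
          exact mul_le_mul_right (ih _) _
        · intro u _
          exact mul_nonneg (hW u) (div_nonneg (hV _) hc.le)
      rw [q_zero]
      by_cases hx : IsFixed x
      · rw [if_pos hx, add_zero]
        refine h1.trans (ENNReal.ofReal_le_ofReal ?_)
        have : ∀ u, V (step x u) = V x := fun u => by rw [hx u]
        simp only [this]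
        rw [← Finset.sum_mul, sum_W, one_mul]
      · rw [if_neg hx]
        have h2 : ∑ u, W (α : ℝ) u * (V (step x u) / c) ≤ V x / c - 1 := by
          have := hd x hx
          have h3 : ∑ u, W (α : ℝ) u * (V (step x u) / c)
              = (∑ u, W (α : ℝ) u * V (step x u)) / c := by
            rw [Finset.sum_div]
            exact Finset.sum_congr rfl fun u _ => by ring
          rw [h3, div_le_iff₀ hc]
          have : (V x / c - 1) * c = V x - c := by field_simp
          linarith
        have h4 : 0 ≤ ∑ u, W (α : ℝ) u * (V (step x u) / c) :=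
          Finset.sum_nonneg fun u _ => mul_nonneg (hW u) (div_nonneg (hV _) hc.le)
        calc (∑ t ∈ Finset.range N, q α (t + 1) x) + 1
            ≤ ENNReal.ofReal (V x / c - 1) + ENNReal.ofReal 1 := by
              rw [ENNReal.ofReal_one]
              gcongr
              exact h1.trans (ENNReal.ofReal_le_ofReal h2)
          _ = ENNReal.ofReal (V x / c) := by
              rw [← ENNReal.ofReal_add (h4.trans h2) zero_le_one]
              congr 1
              ring
  calc ∫⁻ ω, hit x ω ∂(law n α)
      ≤ ∫⁻ ω, ∑' t, (if IsFixed (traj x ω t) then 0 else 1 : ℝ≥0∞) ∂(law n α) :=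
        lintegral_mono fun ω => hit_le x ω
    _ = ∑' t, q α t x := lintegral_tsum fun t => (measurable_ind x t).aemeasurable
    _ ≤ ENNReal.ofReal (V x / c) := by
        refine ENNReal.tsum_le_of_sum_range_le fun N => key N x

/-- expectation of a product of functions of distinct update variables -/
theorem prodE {n m : ℕ} [NeZero n] (a : ℝ) (c : Fin m → ZMod n) (hc : Function.Injective c)
    (f : Fin m → Bool → ℝ) :
    ∑ u, W a u * ∏ k, f k (u (c k)) = ∏ k, (a * f k true + (1 - a) * f k false) := by
  classical
  have h1 : ∀ u : ZMod n → Bool, W a u * ∏ k, f k (u (c k)) =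
      ∏ i, (wt a (u i) * ∏ k, (if c k = i then f k (u i) else 1)) := by
    intro u
    rw [Finset.prod_mul_distrib, Finset.prod_comm]
    unfold W
    congr 1
    refine Finset.prod_congr rfl fun k _ => ?_
    rw [Finset.prod_ite_eq]
    simp
  simp only [h1]
  have h2 := Finset.prod_univ_sum (ι := ZMod n) (κ := fun _ => Bool) (R := ℝ)
    (t := fun _ => Finset.univ)
    (f := fun i b => wt a b * ∏ k, (if c k = i then f k b else 1))
  rw [Fintype.piFinset_univ] at h2
  rw [← h2]
  have h3 : ∀ i : ZMod n, ∑ b : Bool, wt a b * ∏ k, (if c k = i then f k b else 1)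
      = ∏ k, (if c k = i then (a * f k true + (1 - a) * f k false) else 1) := by
    intro i
    by_cases hi : ∃ k, c k = i
    · obtain ⟨k, hk⟩ := hi
      have h4 : ∀ g : Fin m → ℝ, ∏ k', (if c k' = i then g k' else 1) = g k := by
        intro g
        rw [Finset.prod_eq_single k]
        · simp [hk]
        · intro k' _ hk'
          rw [if_neg]
          intro h
          exact hk' (hc (h.trans hk.symm))
        · simp
      simp only [h4]
      simp [wt]
    · push Not at hi
      simp [hi, wt]
  rw [Finset.prod_congr rfl fun i _ => h3 i, Finset.prod_comm]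
  refine Finset.prod_congr rfl fun k _ => ?_
  rw [Finset.prod_ite_eq]
  simp

end Pool.Agent.K4H12.R210
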