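import Pool.Agent.K4H12.R210.Cert
import Pool.Agent.K4H12.R210.Foster

namespace Pool.Agent.K4H12.R210

/-- distance from `j` to the nearest cell in state `1` on its left (`0` if there is none) -/
noncomputable def dist {n : ℕ} (x : Conf n) (j : ZMod n) : ℕ :=
  sInf {k : ℕ | 1 ≤ k ∧ x (j - k) = true}

open Classical in
/-- the mark of a cell -/
noncomputable def mark {n : ℕ} (x : Conf n) (j : ZMod n) : Sym :=
  if x j = true then .one else if Odd (dist x j) then .odd else .even

/-- first cell of the block of zeros containing `j` -/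
noncomputable def st {n : ℕ} (x : Conf n) (j : ZMod n) : ZMod n := j + 1 - dist x j

section
variable {n : ℕ} [NeZero n] {x : Conf n}

theorem dist_nonempty (hx : ∃ i, x i = true) (j : ZMod n) :
    {k : ℕ | 1 ≤ k ∧ x (j - k) = true}.Nonempty := by
  obtain ⟨i, hi⟩ := hx
  refine ⟨(j - i).val + n, ?_, ?_⟩
  · have := NeZero.pos n
    omega
  · push_cast
    rw [ZMod.natCast_val, ZMod.cast_id', id, CharP.cast_eq_zero, add_zero, sub_sub_cancel]
    exact hi

theorem dist_spec (hx : ∃ i, x i = true) (j : ZMod n) :
    1 ≤ dist x j ∧ x (j - dist x j) = true := Nat.sInf_mem (dist_nonempty hx j)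

theorem dist_min {j : ZMod n} {k : ℕ} (h1 : 1 ≤ k) (h2 : k < dist x j) : x (j - k) = false := by
  by_contra h
  have h3 : x (j - k) = true := by simpa using h
  have : dist x j ≤ k := Nat.sInf_le ⟨h1, h3⟩
  omega

theorem dist_succ_of_true {j : ZMod n} (h : x j = true) :
    dist x (j + 1) = 1 := by
  have h1 : (1 : ℕ) ∈ {k : ℕ | 1 ≤ k ∧ x (j + 1 - k) = true} := by
    refine ⟨le_refl _, ?_⟩
    simpa using h
  have h2 : dist x (j + 1) ≤ 1 := Nat.sInf_le h1
  have h3 : 1 ≤ dist x (j + 1) := (Nat.sInf_mem ⟨_, h1⟩).1
  omega

theorem dist_succ_of_false (hx : ∃ i, x i = true) {j : ZMod n} (h : x j = false) :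
    dist x (j + 1) = dist x j + 1 := by
  obtain ⟨h1, h2⟩ := dist_spec hx j
  obtain ⟨h3, h4⟩ := dist_spec hx (j + 1)
  apply le_antisymm
  · refine Nat.sInf_le ⟨by omega, ?_⟩
    push_cast
    rw [add_sub_add_right_eq_sub]
    exact h2
  · by_contra hlt
    push Not at hlt
    have h5 : dist x (j + 1) ≠ 1 := by
      intro h6
      rw [h6] at h4
      simp [h] at h4
    obtain ⟨k, hk⟩ : ∃ k, dist x (j + 1) = k + 1 := ⟨dist x (j + 1) - 1, by omega⟩
    rw [hk] at h4 hlt
    push_cast at h4
    rw [add_sub_add_right_eq_sub] at h4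
    have h7 := dist_min (x := x) (j := j) (k := k) (by omega) (by omega)
    rw [h7] at h4
    exact absurd h4 (by simp)

theorem mark_bit (j : ZMod n) : (mark x j).bit = x j := by
  unfold mark
  split_ifs with h1 h2
  · simp [Sym.bit, h1]
  · simp only [Sym.bit]
    simpa using h1
  · simp only [Sym.bit]
    simpa using h1

theorem mark_succ (hx : ∃ i, x i = true) (j : ZMod n) :
    mark x (j + 1) = nxt (mark x j) (x (j + 1)) := by
  rcases h1 : x (j + 1) with _ | _
  · rcases h : x j with _ | _
    · have h2 := dist_succ_of_false hx h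
      unfold mark
      by_cases h3 : Odd (dist x j)
      · have h4 : ¬ Odd (dist x j + 1) := by
          rw [Nat.not_odd_iff_even]
          exact h3.add_one
        simp [h1, h, h2, h3, h4, nxt]
      · have h4 : Odd (dist x j + 1) := by
          rw [Nat.not_odd_iff_even] at h3
          exact h3.add_one
        simp [h1, h, h2, h3, h4, nxt]
    · have h2 := dist_succ_of_true h
      unfold mark
      simp [h1, h, h2, nxt]
  · unfold mark
    rw [if_pos h1]
    cases (if x j = true then Sym.one else if Odd (dist x j) then Sym.odd else Sym.even) <;> rfl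

theorem st_succ (hx : ∃ i, x i = true) {j : ZMod n} (h : x j = false) :
    st x (j + 1) = st x j := by
  unfold st
  rw [dist_succ_of_false hx h]
  push_cast
  ring

theorem st_succ' {j : ZMod n} (h : x j = true) :
    st x (j + 1) = j + 1 := by
  unfold st
  rw [dist_succ_of_true h]
  push_cast
  ring

theorem st_prev (hx : ∃ i, x i = true) (j : ZMod n) : x (st x j - 1) = true := by
  have := (dist_spec hx j).2
  unfold st
  rw [show j + 1 - (dist x j : ZMod n) - 1 = j - dist x j by ring]
  exact this

theorem st_zero (hx : ∃ i, x i = true) {j : ZMod n} (h : x j = false) : x (st x j) = false := by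
  obtain ⟨h1, h2⟩ := dist_spec hx j
  obtain ⟨k, hk⟩ : ∃ k, dist x j = k + 1 := ⟨dist x j - 1, by omega⟩
  unfold st
  rw [hk]
  push_cast
  rw [add_sub_add_right_eq_sub]
  rcases Nat.eq_zero_or_pos k with h0 | h0
  · rw [h0]
    simpa using h
  · exact dist_min h0 (by omega)

theorem st_next (hx : ∃ i, x i = true) {j : ZMod n} (h : x j = false) (h' : x (j - 1) = false) :
    x (st x j + 1) = false := by
  obtain ⟨h1, h2⟩ := dist_spec hx j
  have hne : dist x j ≠ 1 := by
    intro h3
    rw [h3] at h2
    simp [h'] at h2
  obtain ⟨k, hk⟩ : ∃ k, dist x j = k + 2 := ⟨dist x j - 2, by omega⟩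
  unfold st
  rw [hk]
  push_cast
  rw [show j + 1 - ((k : ZMod n) + 2) + 1 = j - k by ring]
  rcases Nat.eq_zero_or_pos k with h0 | h0
  · rw [h0]
    simpa using h
  · exact dist_min h0 (by omega)

theorem st_ne (hx : ∃ i, x i = true) {j : ZMod n} (h' : x (j - 1) = false) :
    st x j ≠ j := by
  intro h
  have := st_prev hx j
  rw [h, h'] at this
  exact absurd this (by simp)

theorem st_ne_succ (hx : ∃ i, x i = true) {j : ZMod n} (h : x j = false) :
    st x j ≠ j + 1 := by
  intro h1
  have := st_prev hx j
  rw [h1, add_sub_cancel_right, h] at this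
  exact absurd this (by simp)

end

open Classical in
/-- number of cells marked `even` -/
noncomputable def ev {n : ℕ} [NeZero n] (y : Conf n) : ℕ :=
  (Finset.univ.filter fun j : ZMod n => mark y j = .even).card

theorem matching_le {n : ℕ} [NeZero n] (y : Conf n) (S : Finset (ZMod n))
    (hS : ∀ j ∈ S, y j = false ∧ y (j + 1) = false ∧ j + 1 ∉ S) : S.card ≤ ev y := by
  classical
  unfold ev
  by_cases hy : ∃ i, y i = true
  · refine Finset.card_le_card_of_injOn
      (fun j => if mark y j = .even then j else j + 1) ?_ ?_
    · intro j hj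
      obtain ⟨h1, h2, _⟩ := hS j hj
      simp only [Finset.coe_filter, Finset.mem_univ, true_and, Set.mem_ofPred_eq]
      split_ifs with h
      · exact h
      · rw [mark_succ hy, h2]
        have h3 : mark y j = .odd := by
          have := mark_bit (x := y) j
          rw [h1] at this
          cases hm : mark y j with
          | one => rw [hm] at this; simp [Sym.bit] at this
          | odd => rfl
          | even => exact absurd hm h
        rw [h3]
        rfl
    · intro j hj k hk hjk
      simp only at hjk
      obtain ⟨_, _, hj3⟩ := hS j hj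
      obtain ⟨_, _, hk3⟩ := hS k hk
      split_ifs at hjk with h1 h2 h2
      · exact hjk
      · exact absurd (hjk ▸ hj) hk3
      · exact absurd (hjk ▸ hk) hj3
      · exact add_right_cancel hjk
  · push Not at hy
    have : (Finset.univ.filter fun j : ZMod n => mark y j = .even) = Finset.univ := by
      refine Finset.filter_true_of_mem fun j _ => ?_
      have h1 : {k : ℕ | 1 ≤ k ∧ y (j - k) = true} = ∅ := by
        ext k
        simp [hy]
      have h2 : dist y j = 0 := by
        unfold dist
        rw [h1]
        exact Nat.sInf_empty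
      unfold mark
      rw [h2]
      simp [hy j]
    rw [this]
    exact Finset.card_le_card (Finset.subset_univ _)

end Pool.Agent.K4H12.R210
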