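import Pool.Agent.K4H12.R210.Drift

open MeasureTheory ProbabilityTheory
open scoped ENNReal unitInterval

namespace Pool.Agent.K4H12.R210

section bounds
variable {a : ℝ}

theorem mono (h0 : 0 < a) (h1 : a < 1) (i j : ℕ) :
    0 ≤ a ^ i * (1 - a) ^ j ∧ a ^ i * (1 - a) ^ j ≤ 1 := by
  have hb : 0 < 1 - a := by linarith
  constructor
  · positivity
  · exact mul_le_one₀ (pow_le_one₀ h0.le h1.le) (by positivity)
      (pow_le_one₀ hb.le (by linarith))

theorem bA (h0 : 0 < a) (h1 : a < 1) : 0 ≤ cA a (1 - a) ∧ cA a (1 - a) ≤ 195 := by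
  have m1 := mono h0 h1 1 3
  have m2 := mono h0 h1 2 2
  have m3 := mono h0 h1 3 1
  have m4 := mono h0 h1 4 0
  simp only [pow_one, pow_zero, mul_one] at m1 m2 m3 m4
  unfold cA
  constructor <;> nlinarith

theorem bB (h0 : 0 < a) (h1 : a < 1) : 0 ≤ cB a (1 - a) ∧ cB a (1 - a) ≤ 295 := by
  have m0 := mono h0 h1 0 4
  have m1 := mono h0 h1 1 3
  have m2 := mono h0 h1 2 2
  have m3 := mono h0 h1 3 1
  simp only [pow_one, pow_zero, one_mul] at m0 m1 m2 m3
  unfold cB
  constructor <;> nlinarith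

theorem bD (h0 : 0 < a) (h1 : a < 1) : 0 ≤ cD a (1 - a) ∧ cD a (1 - a) ≤ 135 := by
  have m1 := mono h0 h1 1 3
  have m2 := mono h0 h1 2 2
  have m3 := mono h0 h1 3 1
  simp only [pow_one] at m1 m2 m3
  unfold cD
  constructor <;> nlinarith

theorem bE (h0 : 0 < a) (h1 : a < 1) : 0 ≤ cE a (1 - a) ∧ cE a (1 - a) ≤ 120 := by
  have m0 := mono h0 h1 0 4
  have m2 := mono h0 h1 2 2
  simp only [pow_zero, one_mul] at m0 m2
  unfold cE
  constructor <;> nlinarith

theorem bG (h0 : 0 < a) (h1 : a < 1) : 0 ≤ cG a (1 - a) ∧ cG a (1 - a) ≤ 40 := by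
  have m0 := mono h0 h1 0 4
  have m2 := mono h0 h1 2 2
  simp only [pow_zero, one_mul] at m0 m2
  unfold cG
  constructor <;> nlinarith

theorem bF (h0 : 0 < a) (h1 : a < 1) : -102 ≤ cF a (1 - a) ∧ cF a (1 - a) ≤ 102 := by
  have m0 := mono h0 h1 0 4
  have m1 := mono h0 h1 1 3
  have m2 := mono h0 h1 2 2
  have m3 := mono h0 h1 3 1
  simp only [pow_one, pow_zero, one_mul] at m0 m1 m2 m3
  unfold cF
  constructor <;> nlinarith

theorem bK (h0 : 0 < a) (h1 : a < 1) : 0 ≤ cK a (1 - a) ∧ cK a (1 - a) ≤ 62 := by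
  have m2 := mono h0 h1 2 2
  have m3 := mono h0 h1 3 1
  have m4 := mono h0 h1 4 0
  simp only [pow_one, pow_zero, mul_one] at m2 m3 m4
  unfold cK
  constructor <;> nlinarith

theorem ind_01 {n : ℕ} (y : Conf n) (i : ZMod n) (t : Bool) : ind y i t = 0 ∨ ind y i t = 1 := by
  unfold ind
  split_ifs
  · right; rfl
  · left; rfl

theorem locV_bd {n : ℕ} (h0 : 0 < a) (h1 : a < 1) (y : Conf n) (j : ZMod n) :
    -262 ≤ locV a y j ∧ locV a y j ≤ 727 := by
  obtain ⟨a1, a2⟩ := bA h0 h1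
  obtain ⟨b1, b2⟩ := bB h0 h1
  obtain ⟨d1, d2⟩ := bD h0 h1
  obtain ⟨e1, e2⟩ := bE h0 h1
  obtain ⟨g1, g2⟩ := bG h0 h1
  obtain ⟨f1, f2⟩ := bF h0 h1
  unfold locV
  have k1 := ind_01 y (j + 1) false
  have k2 := ind_01 y (j + 1) true
  have k3 := ind_01 y (j + 2) false
  have k4 := ind_01 y (j + 2) true
  have k5 := ind_01 y (j + 3) false
  have k6 := ind_01 y (j + 3) true
  have k7 := ind_01 y (j + 4) false
  have k8 := ind_01 y (j + 4) true
  rcases k1 with k1 | k1 <;> rcases k2 with k2 | k2 <;> rcases k3 with k3 | k3 <;>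
    rcases k4 with k4 | k4 <;> rcases k5 with k5 | k5 <;> rcases k6 with k6 | k6 <;>
    rcases k7 with k7 | k7 <;> rcases k8 with k8 | k8 <;>
    rw [k1, k2, k3, k4, k5, k6, k7, k8] <;>
    constructor <;> linarith

theorem ev_le {n : ℕ} [NeZero n] (y : Conf n) : (ev y : ℝ) ≤ n := by
  classical
  have h : ev y ≤ n := by
    unfold ev
    refine (Finset.card_le_univ _).trans ?_
    rw [ZMod.card]
  exact_mod_cast h

theorem V0_bd {n : ℕ} [NeZero n] (h0 : 0 < a) (h1 : a < 1) (y : Conf n) :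
    -324 * (n : ℝ) ≤ V0 a y ∧ V0 a y ≤ 727 * (n : ℝ) := by
  obtain ⟨c1, c2⟩ := bK h0 h1
  have he := ev_le y
  have he0 : (0 : ℝ) ≤ ev y := Nat.cast_nonneg _
  have hn : (0 : ℝ) ≤ n := Nat.cast_nonneg _
  have hl : -262 * (n : ℝ) ≤ ∑ j, locV a y j := by
    have := Finset.card_nsmul_le_sum (Finset.univ : Finset (ZMod n)) (fun j => locV a y j) (-262)
      (fun j _ => (locV_bd h0 h1 y j).1)
    rw [Finset.card_univ, ZMod.card, nsmul_eq_mul] at this
    linarith
  have hu : ∑ j, locV a y j ≤ 727 * (n : ℝ) := by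
    have := Finset.sum_le_card_nsmul (Finset.univ : Finset (ZMod n)) (fun j => locV a y j) 727
      (fun j _ => (locV_bd h0 h1 y j).2)
    rw [Finset.card_univ, ZMod.card, nsmul_eq_mul] at this
    linarith
  have h3 : cK a (1 - a) * ev y ≤ 62 * n := mul_le_mul c2 he he0 (by norm_num)
  have h4 : 0 ≤ cK a (1 - a) * ev y := mul_nonneg c1 he0
  unfold V0
  constructor <;> linarith

end bounds

/-- the potential for the ring of three cells -/
noncomputable def V3 (a : ℝ) (y : Conf 3) : ℝ :=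
  ∑ j, (3 * (ind y j false * ind y (j + 1) true * ind y (j + 2) false)
    + (4 - a) * (ind y j true * ind y (j + 1) false * ind y (j + 2) true))

theorem V3_bd {a : ℝ} (h0 : 0 < a) (h1 : a < 1) (y : Conf 3) : 0 ≤ V3 a y ∧ V3 a y ≤ 21 := by
  have key : ∀ j, 0 ≤ (3 * (ind y j false * ind y (j + 1) true * ind y (j + 2) false)
    + (4 - a) * (ind y j true * ind y (j + 1) false * ind y (j + 2) true)) ∧
    (3 * (ind y j false * ind y (j + 1) true * ind y (j + 2) false)
    + (4 - a) * (ind y j true * ind y (j + 1) false * ind y (j + 2) true)) ≤ 7 := by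
    intro j
    have k1 := ind_01 y j false
    have k2 := ind_01 y j true
    have k3 := ind_01 y (j + 1) false
    have k4 := ind_01 y (j + 1) true
    have k5 := ind_01 y (j + 2) false
    have k6 := ind_01 y (j + 2) true
    rcases k1 with k1 | k1 <;> rcases k2 with k2 | k2 <;> rcases k3 with k3 | k3 <;>
      rcases k4 with k4 | k4 <;> rcases k5 with k5 | k5 <;> rcases k6 with k6 | k6 <;>
      rw [k1, k2, k3, k4, k5, k6] <;> constructor <;> linarith
  constructor
  · exact Finset.sum_nonneg fun j _ => (key j).1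
  · have := Finset.sum_le_card_nsmul (Finset.univ : Finset (ZMod 3)) _ 7
      (fun j _ => (key j).2)
    rw [Finset.card_univ, ZMod.card, nsmul_eq_mul] at this
    unfold V3
    push_cast at this
    linarith

theorem drift3 {a : ℝ} (h0 : 0 < a) (h1 : a < 1) (x : Conf 3) (hx : ¬ IsFixed x) :
    ∑ u, W a u * V3 a (step x u) ≤ V3 a x - a * (1 - a) := by
  obtain ⟨hxt, hxf⟩ := nonfixed hx
  have hE : ∑ u, W a u * V3 a (step x u)
      = ∑ j, (3 * (P a x j false * P a x (j + 1) true * P a x (j + 2) false)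
    + (4 - a) * (P a x j true * P a x (j + 1) false * P a x (j + 2) true)) := by
    have n1 : ∀ j : ZMod 3, j ≠ j + 1 := by decide
    have n2 : ∀ j : ZMod 3, j ≠ j + 2 := by decide
    have n3 : ∀ j : ZMod 3, j + 1 ≠ j + 2 := by decide
    unfold V3
    simp only [Finset.mul_sum]
    rw [Finset.sum_comm]
    refine Finset.sum_congr rfl fun j _ => ?_
    rw [← E3 a x (n1 j) (n2 j) (n3 j) false true false,
      ← E3 a x (n1 j) (n2 j) (n3 j) true false true, Finset.mul_sum, Finset.mul_sum,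
      ← Finset.sum_add_distrib]
    exact Finset.sum_congr rfl fun u _ => by ring
  rw [hE]
  unfold V3 P ind
  have hs : ∀ g : ZMod 3 → ℝ, ∑ j, g j = g 0 + g 1 + g 2 := fun g => Fin.sum_univ_three g
  rw [hs, hs]
  have r1 : (0 : ZMod 3) - 1 = 2 := by decide
  have r2 : (0 : ZMod 3) + 1 = 1 := by decide
  have r3 : (0 : ZMod 3) + 2 = 2 := by decide
  have r4 : (1 : ZMod 3) - 1 = 0 := by decide
  have r5 : (1 : ZMod 3) + 1 = 2 := by decide
  have r6 : (1 : ZMod 3) + 2 = 0 := by decide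
  have r7 : (2 : ZMod 3) - 1 = 1 := by decide
  have r8 : (2 : ZMod 3) + 1 = 0 := by decide
  have r9 : (2 : ZMod 3) + 2 = 1 := by decide
  simp only [r1, r2, r3, r4, r5, r6, r7, r8, r9]
  have ht : x 0 = true ∨ x 1 = true ∨ x 2 = true := by
    obtain ⟨i, hi⟩ := hxt
    have : ∀ i : ZMod 3, i = 0 ∨ i = 1 ∨ i = 2 := by decide
    rcases this i with rfl | rfl | rfl
    · exact Or.inl hi
    · exact Or.inr (Or.inl hi)
    · exact Or.inr (Or.inr hi)
  have hf : x 0 = false ∨ x 1 = false ∨ x 2 = false := by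
    obtain ⟨i, hi⟩ := hxf
    have : ∀ i : ZMod 3, i = 0 ∨ i = 1 ∨ i = 2 := by decide
    rcases this i with rfl | rfl | rfl
    · exact Or.inl hi
    · exact Or.inr (Or.inl hi)
    · exact Or.inr (Or.inr hi)
  have hb : 0 < 1 - a := by linarith
  have p1 : 0 < a * (1 - a) := by positivity
  have p2 : 0 < a ^ 2 * (1 - a) := by positivity
  have p3 : 0 < a * (1 - a) ^ 2 := by positivity
  have p4 : 0 < a ^ 2 * (1 - a) ^ 2 := by positivity
  have p5 : 0 < a ^ 3 * (1 - a) := by positivity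
  have p6 : 0 < a * (1 - a) ^ 3 := by positivity
  generalize x 0 = y0 at ht hf ⊢
  generalize x 1 = y1 at ht hf ⊢
  generalize x 2 = y2 at ht hf ⊢
  cases y0 <;> cases y1 <;> cases y2 <;> simp [pr, rule] at ht hf ⊢ <;> nlinarith

end Pool.Agent.K4H12.R210
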